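import Pool.Agent.L0h54.RM.Sqf

/-! Squarefree integers prime to a given prime in intervals. -/

set_option autoImplicit false

namespace Pool.Agent.L0h62.VC

open Finset
open Pool.Agent.Y293.SF (mu abs_mu_le mu_zero count_eq)
open Pool.Agent.L0h54.RM (tail_le card_mult_abs)

theorem sqf_count (n : ℕ) (hn : 1 ≤ n) :
    |(((Icc 1 n).filter Squarefree).card : ℝ) - 6 / Real.pi ^ 2 * n| ≤ 3 * Real.sqrt n := by
  obtain ⟨D, hD⟩ : ∃ D, D = Nat.sqrt n := ⟨_, rfl⟩
  have hD1 : 1 ≤ D := by rw [hD]; exact Nat.sqrt_pos.mpr hn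
  have hDn : D * D ≤ n := by rw [hD]; exact Nat.sqrt_le n
  have hDn' : n < (D + 1) * (D + 1) := by rw [hD]; exact Nat.lt_succ_sqrt n
  have hn0 : (0 : ℝ) < n := by exact_mod_cast hn
  have hD0 : (0 : ℝ) < D := by exact_mod_cast hD1
  have hDs : (D : ℝ) ≤ Real.sqrt n := by
    rw [Real.le_sqrt (by positivity) (by positivity), sq]; exact_mod_cast hDn
  have hDs' : Real.sqrt n ≤ D + 1 := by
    rw [Real.sqrt_le_left (by positivity), sq]; exact_mod_cast hDn'.le
  have hss : Real.sqrt n * Real.sqrt n = n := Real.mul_self_sqrt hn0.le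
  have h1 : (((Icc 1 n).filter Squarefree).card : ℝ) = ∑ d ∈ Icc 1 D, mu d * ((n / d ^ 2 : ℕ) : ℝ) := by
    have := count_eq n
    rw [show ((Icc 1 n).filter Squarefree) = (Icc 1 n).filter (fun m => Squarefree m) from rfl]
    convert this using 1
    symm
    apply tsum_eq_sum
    intro d hd
    rw [mem_Icc, not_and_or, not_le, not_le] at hd
    rcases hd with hd | hd
    · rw [show d = 0 by omega, mu_zero, zero_mul]
    · have : n < d ^ 2 := by nlinarith
      rw [Nat.div_eq_of_lt this, Nat.cast_zero, mul_zero]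
  have h2 : (((Icc 1 n).filter Squarefree).card : ℝ) - 6 / Real.pi ^ 2 * n =
      ∑ d ∈ Icc 1 D, mu d * (((n / d ^ 2 : ℕ) : ℝ) - n / (d : ℝ) ^ 2) -
        n * (6 / Real.pi ^ 2 - ∑ d ∈ Icc 1 D, mu d * (1 / (d : ℝ) ^ 2)) := by
    rw [h1, mul_sub, mul_sum]
    have : ∀ d ∈ Icc 1 D, mu d * (((n / d ^ 2 : ℕ) : ℝ) - n / (d : ℝ) ^ 2) =
        mu d * ((n / d ^ 2 : ℕ) : ℝ) - n * (mu d * (1 / (d : ℝ) ^ 2)) := fun d _ => by ring
    rw [sum_congr rfl this, sum_sub_distrib]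
    ring
  have h3 : |∑ d ∈ Icc 1 D, mu d * (((n / d ^ 2 : ℕ) : ℝ) - n / (d : ℝ) ^ 2)| ≤ D := by
    refine (abs_sum_le_sum_abs _ _).trans ?_
    have : ∀ d ∈ Icc 1 D, |mu d * (((n / d ^ 2 : ℕ) : ℝ) - n / (d : ℝ) ^ 2)| ≤ 1 := by
      intro d hd
      rw [mem_Icc] at hd
      have hd00 : (0 : ℝ) < d := by exact_mod_cast hd.1
      have hd0 : (0 : ℝ) < (d : ℝ) ^ 2 := by positivity
      rw [abs_mul]
      have e1 : ((n / d ^ 2 : ℕ) : ℝ) ≤ n / (d : ℝ) ^ 2 := by
        have := Nat.cast_div_le (α := ℝ) (m := n) (n := d ^ 2)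
        push_cast at this; exact this
      have e2 : (n : ℝ) / (d : ℝ) ^ 2 < ((n / d ^ 2 : ℕ) : ℝ) + 1 := by
        rw [div_lt_iff₀ hd0]
        have := Nat.lt_div_mul_add (a := n) (b := d ^ 2) (by have := hd.1; positivity)
        have h4 : n < (n / d ^ 2 + 1) * d ^ 2 := by rw [add_mul, one_mul]; exact this
        exact_mod_cast h4
      have e3 : |((n / d ^ 2 : ℕ) : ℝ) - n / (d : ℝ) ^ 2| ≤ 1 := by
        rw [abs_le]; constructor <;> linarith
      exact mul_le_one₀ (abs_mu_le d) (abs_nonneg _) e3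
    refine (sum_le_sum this).trans ?_
    rw [sum_const, Nat.card_Icc, nsmul_eq_mul, Nat.add_sub_cancel, mul_one]
  have h4 := tail_le D hD1
  rw [h2]
  refine (abs_sub _ _).trans ?_
  rw [abs_mul, abs_of_pos hn0]
  have h5 : (n : ℝ) * |6 / Real.pi ^ 2 - ∑ d ∈ Icc 1 D, mu d * (1 / (d : ℝ) ^ 2)| ≤ n * (1 / D) := by gcongr
  have hD1' : (1 : ℝ) ≤ D := by exact_mod_cast hD1
  have h6 : (n : ℝ) * (1 / D) ≤ 2 * Real.sqrt n := by
    rw [mul_one_div, div_le_iff₀ hD0]
    have h7 : Real.sqrt n ≤ 2 * D := by linarith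
    calc (n : ℝ) = Real.sqrt n * Real.sqrt n := hss.symm
      _ ≤ Real.sqrt n * (2 * D) := by gcongr
      _ = _ := by ring
  linarith

/-- squarefree integers in `[A, B)` not divisible by `P` -/
theorem sqf_prime (P A B : ℕ) (hP : 1 ≤ P) (hA : 1 ≤ A) (hAB : A ≤ B) :
    |(((Ico A B).filter (fun n => Squarefree n ∧ ¬ P ∣ n)).card : ℝ) - 6 / Real.pi ^ 2 * ((B : ℝ) - A)| ≤
      6 * Real.sqrt B + ((B : ℝ) - A) / P + 1 := by
  classical
  have hP0 : (0 : ℝ) < P := by exact_mod_cast hP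
  -- one prefix count
  have pre : ∀ n : ℕ, |(((Icc 1 n).filter Squarefree).card : ℝ) - 6 / Real.pi ^ 2 * n| ≤ 3 * Real.sqrt n := by
    intro n
    rcases Nat.eq_zero_or_pos n with h | h
    · subst h; simp
    · exact sqf_count n h
  have h1 : (((Ico A B).filter Squarefree).card : ℝ) =
      (((Icc 1 (B - 1)).filter Squarefree).card : ℝ) - (((Icc 1 (A - 1)).filter Squarefree).card : ℝ) := by
    have e : (Icc 1 (B - 1)).filter Squarefree = (Icc 1 (A - 1)).filter Squarefree ∪ (Ico A B).filter Squarefree := by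
      ext n
      simp only [mem_union, mem_filter, mem_Icc, mem_Ico]
      constructor
      · rintro ⟨h, hs⟩
        by_cases h2 : n < A
        · exact Or.inl ⟨by omega, hs⟩
        · exact Or.inr ⟨by omega, hs⟩
      · rintro (⟨h, hs⟩ | ⟨h, hs⟩)
        · exact ⟨by omega, hs⟩
        · exact ⟨by omega, hs⟩
    rw [e, card_union_of_disjoint]
    · push_cast; ring
    · rw [disjoint_left]
      intro n
      simp only [mem_filter, mem_Icc, mem_Ico]
      omega
  have hB1 : Real.sqrt ((B - 1 : ℕ) : ℝ) ≤ Real.sqrt B := Real.sqrt_le_sqrt (by exact_mod_cast Nat.sub_le B 1)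
  have hA1 : Real.sqrt ((A - 1 : ℕ) : ℝ) ≤ Real.sqrt B := Real.sqrt_le_sqrt (by
    exact_mod_cast (Nat.sub_le A 1).trans hAB)
  have h2 := abs_le.mp (pre (B - 1))
  have h3 := abs_le.mp (pre (A - 1))
  have hcB : ((B - 1 : ℕ) : ℝ) = (B : ℝ) - 1 := by rw [Nat.cast_sub (by omega)]; simp
  have hcA : ((A - 1 : ℕ) : ℝ) = (A : ℝ) - 1 := by rw [Nat.cast_sub (by omega)]; simp
  -- the multiples
  have h4 : ((Ico A B).filter (fun n => P ∣ n)).card ≤ ((Ioc (A - 1) (A - 1 + (B - A))).filter (fun n => P ∣ n)).card := by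
    apply card_le_card
    intro n
    simp only [mem_filter, mem_Ico, mem_Ioc]
    rintro ⟨h, h'⟩
    exact ⟨by omega, h'⟩
  have h5 := (abs_le.mp (card_mult_abs (A - 1) (B - A) P (by omega))).2
  have hcBA : ((B - A : ℕ) : ℝ) = (B : ℝ) - A := Nat.cast_sub hAB
  rw [hcBA] at h5
  have h4' : (((Ico A B).filter (fun n => P ∣ n)).card : ℝ) ≤ ((B : ℝ) - A) / P + 1 := by
    have : (((Ico A B).filter (fun n => P ∣ n)).card : ℝ) ≤
      (((Ioc (A - 1) (A - 1 + (B - A))).filter (fun n => P ∣ n)).card : ℝ) := by exact_mod_cast h4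
    linarith
  have h6 : ((Ico A B).filter (fun n => Squarefree n ∧ ¬ P ∣ n)).card ≤ ((Ico A B).filter Squarefree).card := by
    apply card_le_card
    intro n
    simp only [mem_filter]
    tauto
  have h7 : ((Ico A B).filter Squarefree).card ≤ ((Ico A B).filter (fun n => Squarefree n ∧ ¬ P ∣ n)).card +
      ((Ico A B).filter (fun n => P ∣ n)).card := by
    rw [← card_union_add_card_inter]
    refine le_trans (card_le_card ?_) (Nat.le_add_right _ _)
    intro n
    simp only [mem_filter, mem_union]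
    tauto
  have h6' : (((Ico A B).filter (fun n => Squarefree n ∧ ¬ P ∣ n)).card : ℝ) ≤ (((Ico A B).filter Squarefree).card : ℝ) := by
    exact_mod_cast h6
  have h7' : (((Ico A B).filter Squarefree).card : ℝ) ≤ (((Ico A B).filter (fun n => Squarefree n ∧ ¬ P ∣ n)).card : ℝ) +
      (((Ico A B).filter (fun n => P ∣ n)).card : ℝ) := by exact_mod_cast h7
  have h8 : 6 / Real.pi ^ 2 * ((B - 1 : ℕ) : ℝ) - 6 / Real.pi ^ 2 * ((A - 1 : ℕ) : ℝ) =
      6 / Real.pi ^ 2 * ((B : ℝ) - A) := by rw [hcB, hcA]; ring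
  have hAB' : (A : ℝ) ≤ B := by exact_mod_cast hAB
  have h9 : 0 ≤ ((B : ℝ) - A) / P := div_nonneg (by linarith) hP0.le
  rw [abs_le]
  constructor <;> linarith [h2.1, h2.2, h3.1, h3.2]

end Pool.Agent.L0h62.VC
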